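import Pool.Agent.U933.EC.F

/-!
# The effective cones of a very general ample hypersurface and of the ambient variety differ

Let `Y = P^1 × P^n`, `n ≥ 3`, and let `A` be any ample divisor on `Y`, that is, `A = O(α, β)` with
`α, β ≥ 1`. Let `d` be any integer with `d α ≥ n` and let `X ∈ |d A|` be general: the coefficients of
the equation `F` of `X` are not a zero of a certain nonzero homogeneous polynomial `Φ`. Then the
effective cones of `X` and `Y` are different in ALL dimensions `1 ≤ k ≤ n`: every subvariety `Z` of `X`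
of dimension `k` satisfies the inequality

  `Z · H₁ · H₂ ^ (k - 1) ≤ d β (Z · H₂ ^ k)`,

so that the class `(1, 0)` of `P^1 × P^(k - 1)`, which is in `Eff_k(Y)`, is not in `i_*(Eff_k(X))`.
So `i_*` does not induce an isomorphism of the effective cones in any dimension `k ≥ 1`, and the answer to
Q1 is negative: there are no `d_0` and `k_0 ≥ 1` as required for any ample `A` on `Y`.

The definitions are in `Pool/Agent/U933/EC/Defs.lean`. Subvarieties are given by bihomogeneous prime
ideals, and intersection numbers by the leading coefficients of the bigraded Hilbert function.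

Proof. Write `F = ∑ F_i(y) x_0^(m - i) x_1^i`, `m = d α ≥ n`. For general `F` the forms `F_0, ..., F_n` have no
common zero (the determinant `Φ` shows that they generate all forms of degree `(n + 1) d β`).
Therefore, for a subvariety `Z` of `X` with the coordinate ring `R`, there is `s` such that neither
`F(1, s, y)` nor the linear form `x_1 - s x_0` is zero on `Z`. The function
`F(1, s, y) / (x_1 - s x_0)` has no pole on `Z`: multiplication by it is an injective map from
`R_(a, b)` to `R_(a - 1, b + d β)` for `a ≥ m`. The inequality follows by comparison of the leading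
coefficients of the Hilbert functions.
-/

set_option autoImplicit false

namespace Pool.Agent.Results.MP_f4858a_ag.EffectiveConesDiffer

open MvPolynomial Pool.Agent.U933.EC

/-- Let `n ≥ 3`, `α, β ≥ 1` and `d α ≥ n`. For all forms `F` of bidegree `(d α, d β)` in `|d A|`,
`A = O(α, β)`, outside the zero set of a homogeneous polynomial `Φ` in the coefficients, which is not
zero on this space, and for all `1 ≤ k ≤ n`: the cone generated by the classes of the `k`-dimensional
subvarieties of `X = {F = 0}` lies in the half-plane `c₁ ≤ d β c₂`, and the class `(1, 0)` is contained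
in the effective cone `Eff_k(P^1 × P^n)`, but not in the cone of the subvarieties of `X`. -/
theorem result (n : ℕ) (hn : 3 ≤ n) (α β : ℕ) (hα : 1 ≤ α) (hβ : 1 ≤ β) (d : ℕ) (hd : n ≤ d * α) :
    ∃ Φ : MvPolynomial (Var n →₀ ℕ) ℂ,
      (∃ r, Φ.IsHomogeneous r) ∧
      (∃ F : S n, IsForm F (d * α) (d * β) ∧ eval (fun m => F.coeff m) Φ ≠ 0) ∧
      ∀ F : S n, IsForm F (d * α) (d * β) → eval (fun m => F.coeff m) Φ ≠ 0 →
        ∀ k : ℕ, 1 ≤ k → k ≤ n →
          Eff n k F ⊆ {c | c.1 ≤ (d * β : ℝ) * c.2} ∧
          ((1 : ℝ), (0 : ℝ)) ∈ Eff n k 0 ∧ ((1 : ℝ), (0 : ℝ)) ∉ Eff n k F := by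
  have hd1 : 1 ≤ d := by
    rcases Nat.eq_zero_or_pos d with h | h
    · rw [h] at hd; omega
    · exact h
  have he : 1 ≤ d * β := Nat.mul_pos hd1 hβ
  have hm : 1 ≤ d * α := Nat.mul_pos hd1 hα
  refine ⟨Phi n (d * α) (d * β) he, ⟨_, phi_homog n (d * α) (d * β) he⟩,
    ⟨F0 n (d * α) (d * β), form_F0 hd, eval_F0 he⟩, fun F hF hΦ k hk hkn => ?_⟩
  have h1 := eff_le hm hF (mem_of_det he hd hF hΦ) hk
  have h2 : Eff n k F ⊆ {c | c.1 ≤ (d * β : ℝ) * c.2} := by
    intro c hc
    have h3 := h1 hc
    simpa using h3
  refine ⟨h2, mem_eff hk (by omega), fun h => ?_⟩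
  have h3 := h2 h
  simp only [Set.mem_ofPred_eq, mul_zero] at h3
  linarith

end Pool.Agent.Results.MP_f4858a_ag.EffectiveConesDiffer
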